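import Mathlib
import Pool.Agent.X223.WAL.Main

/-!
# MP_2d1a26_lc, Q1 (Walsberg)

Every smooth function `ℝ → ℝ` definable (with real parameters) in `(ℝ, <, +, ·|(0,1)², ℤ)` is
affine.
-/

namespace Pool.Agent.Results.MP_2d1a26_lc.SmoothDefinableAffine

open Pool.Agent.X223.WAL ContDiff

/-- Every `C^∞` function `f : ℝ → ℝ` whose graph is definable with real parameters in
`(ℝ, <, +, ·|(0,1)², ℤ)` is affine. -/
theorem result (f : ℝ → ℝ) (hsmooth : ContDiff ℝ ∞ f)
    (hdef : Set.Definable (Set.univ : Set ℝ) LZ {w : Fin 2 → ℝ | w 1 = f (w 0)}) :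
    ∃ a b : ℝ, ∀ x : ℝ, f x = a * x + b :=
  affine_of_smooth (contDiff_infty.1 hsmooth) hdef

end Pool.Agent.Results.MP_2d1a26_lc.SmoothDefinableAffine
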